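import Pool.Agent.Q119.HV.Zdb

set_option autoImplicit false

/-! # HV-ZD: the zero function of a Dirichlet L-function -/

open Complex Filter Topology Set MeasureTheory
open DirichletCharacter (completedLFunction gammaFactor rootNumber LFunction)

namespace Pool.Agent.Q119.HV

open H370 H370.DL H370.DG H429.GP H855R2.SF Pool.Agent.Q253.HV

lemma logDeriv_factor {p : ℕ} (hp : p.Prime) {a : ℂ} (ha : ‖a‖ ≤ 1) {s : ℂ} (hs : 1 / 2 ≤ s.re) :
    1 - a * (p : ℂ) ^ (-s) ≠ 0 ∧ DifferentiableAt ℂ (fun s : ℂ => 1 - a * (p : ℂ) ^ (-s)) s ∧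
      ‖logDeriv (fun s : ℂ => 1 - a * (p : ℂ) ^ (-s)) s‖ ≤ Real.log p / (Real.sqrt p - 1) := by
  have hp0 : (0 : ℝ) < p := by exact_mod_cast hp.pos
  have hp1 : (1 : ℝ) < p := by exact_mod_cast hp.one_lt
  have hpc : (p : ℂ) ≠ 0 := by exact_mod_cast hp.ne_zero
  have hsq : 1 < Real.sqrt p := by
    rw [Real.lt_sqrt zero_le_one]
    simpa using hp1
  set r : ℝ := (p : ℝ) ^ (-s.re) with hr
  have hr0 : 0 < r := Real.rpow_pos_of_pos hp0 _
  have hnorm : ‖(p : ℂ) ^ (-s)‖ = r := by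
    rw [← Complex.ofReal_natCast, norm_cpow_eq_rpow_re_of_pos hp0, neg_re]
  have hrs : r * Real.sqrt p ≤ 1 := by
    rw [hr, Real.sqrt_eq_rpow, ← Real.rpow_add hp0]
    exact Real.rpow_le_one_of_one_le_of_nonpos hp1.le (by linarith)
  have hr1 : r < 1 := by nlinarith
  have hnorm2 : ‖a * (p : ℂ) ^ (-s)‖ ≤ r := by
    rw [norm_mul, hnorm]
    have := mul_le_mul_of_nonneg_right ha hr0.le
    linarith
  have hlow : 1 - r ≤ ‖1 - a * (p : ℂ) ^ (-s)‖ := by
    have h := norm_sub_norm_le (1 : ℂ) (a * (p : ℂ) ^ (-s))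
    rw [norm_one] at h
    linarith
  have hne : 1 - a * (p : ℂ) ^ (-s) ≠ 0 := by
    intro h
    rw [h, norm_zero] at hlow
    linarith
  have hd : HasDerivAt (fun s : ℂ => 1 - a * (p : ℂ) ^ (-s)) (-(a * ((p : ℂ) ^ (-s) * log p * (-1)))) s := by
    have h1 : HasDerivAt (fun s : ℂ => -s) (-1) s := (hasDerivAt_id s).neg
    exact ((h1.const_cpow (Or.inl hpc)).const_mul a).const_sub 1
  refine ⟨hne, hd.differentiableAt, ?_⟩
  rw [logDeriv_apply, hd.deriv, norm_div]
  have hlp : 0 < Real.log p := Real.log_pos hp1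
  have hlc : ‖log (p : ℂ)‖ = Real.log p := by
    rw [← Complex.ofReal_natCast, ← Complex.ofReal_log hp0.le, Complex.norm_real, Real.norm_eq_abs,
      abs_of_pos hlp]
  have hnum : ‖-(a * ((p : ℂ) ^ (-s) * log p * (-1)))‖ ≤ r * Real.log p := by
    rw [norm_neg, norm_mul, norm_mul, norm_mul, hnorm, hlc, norm_neg, norm_one, mul_one]
    have := mul_le_mul_of_nonneg_right ha (mul_pos hr0 hlp).le
    linarith
  rw [div_le_div_iff₀ (by linarith) (by linarith)]
  have h3 : r * Real.log p * (Real.sqrt p - 1) ≤ Real.log p * (1 - r) := by nlinarith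
  have h4 : ‖-(a * ((p : ℂ) ^ (-s) * log p * (-1)))‖ * (Real.sqrt p - 1) ≤
      r * Real.log p * (Real.sqrt p - 1) := mul_le_mul_of_nonneg_right hnum (by linarith)
  have h5 : Real.log p * (1 - r) ≤ Real.log p * ‖1 - a * (p : ℂ) ^ (-s)‖ :=
    mul_le_mul_of_nonneg_left hlow hlp.le
  linarith

theorem t_ZD (hZG : S_ZG) : S_ZD := by
  obtain ⟨C, hC0, hC⟩ := digam
  refine ⟨C, hC0, ?_⟩
  intro q _ χ hχ hL
  haveI : NeZero χ.conductor := ⟨by
    intro h
    have h1 := χ.conductor_dvd_level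
    rw [h] at h1
    exact NeZero.ne q (zero_dvd_iff.1 h1)⟩
  set ψ := χ.primitiveCharacter with hψdef
  have hψ : ψ.IsPrimitive := χ.primitiveCharacter_isPrimitive
  have hN : 1 < χ.conductor := by
    have h1 : χ.conductor ≠ 1 := fun h => hχ (DirichletCharacter.eq_one_iff_conductor_eq_one.2 h)
    have h2 := NeZero.ne χ.conductor
    omega
  have hψ1 : ψ ≠ 1 := ne_one_of_prim hN hψ
  have hfac : ∀ s : ℂ, LFunction χ s = LFunction ψ s *
      ∏ p ∈ q.primeFactors, (1 - ψ p * (p : ℂ) ^ (-s)) := fun s => by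
    have h := DirichletCharacter.LFunction_changeLevel χ.conductor_dvd_level ψ (s := s) (Or.inl hψ1)
    rwa [χ.changeLevel_primitiveCharacter] at h
  have hLψ : ∀ s : ℂ, 1 / 2 < s.re → LFunction ψ s ≠ 0 := fun s hs h => by
    apply hL s hs
    rw [hfac, h, zero_mul]
  have hZ := hZG (X ψ) (X_diff hψ1) (X_sym hN hψ) ⟨1, X_zero hN hψ hLψ (by simp)⟩
    ⟨Real.log χ.conductor + 2 * (χ.conductor + 1) + 25, by
      have := Real.log_natCast_nonneg χ.conductor
      positivity, X_growth hN hψ⟩ (by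
      intro s hs
      rcases lt_trichotomy s.re 0 with h | h | h
      · exfalso
        refine X_zero hN hψ hLψ (z := -((starRingEnd ℂ) s)) (by rw [neg_re, conj_re]; linarith) ?_
        rw [X_sym hN hψ, hs, map_zero]
      · exact h
      · exact absurd hs (X_zero hN hψ hLψ h))
  refine ⟨_, hZ, ?_⟩
  intro δ y hδ hδ1
  set z : ℂ := pt δ y with hz
  have hzre : z.re = δ := by simp [hz, pt]
  have hzim : z.im = y := by simp [hz, pt]
  have hs : pt (1 / 2 + δ) y = 1 / 2 + z := by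
    rw [hz]
    unfold pt
    push_cast
    ring
  rw [hs]
  have hsre : (1 / 2 + z).re = 1 / 2 + δ := by rw [add_re, half_re, hzre]
  have hLs : LFunction ψ (1 / 2 + z) ≠ 0 := hLψ _ (by rw [hsre]; linarith)
  have hX := logDeriv_X hN hψ (z := z) (by rw [hzre]; exact hδ) hLs
  have hfp : ∀ p ∈ q.primeFactors, 1 - ψ p * (p : ℂ) ^ (-(1 / 2 + z)) ≠ 0 ∧
      DifferentiableAt ℂ (fun s : ℂ => 1 - ψ p * (p : ℂ) ^ (-s)) (1 / 2 + z) ∧
      ‖logDeriv (fun s : ℂ => 1 - ψ p * (p : ℂ) ^ (-s)) (1 / 2 + z)‖ ≤ Real.log p / (Real.sqrt p - 1) :=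
    fun p hp => logDeriv_factor (Nat.prime_of_mem_primeFactors hp) (DirichletCharacter.norm_le_one ψ _)
      (by rw [hsre]; linarith)
  have hprod : logDeriv (LFunction χ) (1 / 2 + z) = logDeriv (LFunction ψ) (1 / 2 + z) +
      ∑ p ∈ q.primeFactors, logDeriv (fun s : ℂ => 1 - ψ p * (p : ℂ) ^ (-s)) (1 / 2 + z) := by
    have e : LFunction χ = fun s => LFunction ψ s * ∏ p ∈ q.primeFactors, (1 - ψ p * (p : ℂ) ^ (-s)) :=
      funext hfac
    have hd : DifferentiableAt ℂ (fun s : ℂ => ∏ p ∈ q.primeFactors, (1 - ψ p * (p : ℂ) ^ (-s)))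
        (1 / 2 + z) := DifferentiableAt.fun_finsetProd fun p hp => (hfp p hp).2.1
    rw [e, logDeriv_mul _ hLs (Finset.prod_ne_zero_iff.2 fun p hp => (hfp p hp).1)
      (DirichletCharacter.differentiable_LFunction hψ1 _) hd]
    congr 1
    have h := logDeriv_prod (s := q.primeFactors) (f := fun p (s : ℂ) => 1 - ψ p * (p : ℂ) ^ (-s))
      (x := 1 / 2 + z) (fun p hp => (hfp p hp).1) (fun p hp => (hfp p hp).2.1)
    exact h
  have hG := hC (1 / 2 + z + aa ψ) (by
    have := aa_re_nonneg (χ := ψ)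
    rw [add_re, hsre]
    linarith) (by
    have := aa_re_le (ψ := ψ)
    rw [add_re, hsre]
    linarith)
  have him : (1 / 2 + z + aa ψ).im = y := by
    rw [add_im, add_im, aa_im, hzim]
    norm_num
  rw [him] at hG
  have hS : ‖∑ p ∈ q.primeFactors, logDeriv (fun s : ℂ => 1 - ψ p * (p : ℂ) ^ (-s)) (1 / 2 + z)‖ ≤
      Pool.Agent.Q253.HV.eq q :=
    (norm_sum_le _ _).trans (Finset.sum_le_sum fun p hp => (hfp p hp).2.2)
  have e1 : (logDeriv (LFunction χ) (1 / 2 + z)).re -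
      ((logDeriv (X ψ) z).re - (1 / 2) * Real.log (χ.conductor : ℝ)) =
      -(logDeriv Gammaℝ (1 / 2 + z + aa ψ)).re +
        (∑ p ∈ q.primeFactors, logDeriv (fun s : ℂ => 1 - ψ p * (p : ℂ) ^ (-s)) (1 / 2 + z)).re := by
    rw [hX, hprod]
    simp only [add_re]
    have e2 : ((1 / 2 : ℂ) * (Real.log χ.conductor : ℂ)).re = (1 / 2) * Real.log (χ.conductor : ℝ) := by
      have : (1 / 2 : ℂ) * (Real.log χ.conductor : ℂ) = (((1 / 2) * Real.log χ.conductor : ℝ) : ℂ) := by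
        push_cast
        ring
      rw [this, ofReal_re]
    rw [e2]
    ring
  show |(logDeriv (LFunction χ) (1 / 2 + z)).re -
      ((logDeriv (X ψ) z).re - (1 / 2) * Real.log (χ.conductor : ℝ))| ≤ _
  rw [e1]
  refine (abs_add_le _ _).trans (add_le_add ?_ ((abs_re_le_norm _).trans hS))
  rw [abs_neg]
  exact (abs_re_le_norm _).trans hG

end Pool.Agent.Q119.HV
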