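import Pool.Agent.Q253.HV.Stm
import Pool.Agent.H370R2.DirGood

set_option autoImplicit false

/-! # HV-ZD: preliminaries on the Gamma factor and the completed L-function -/

open Complex Filter Topology Set MeasureTheory
open DirichletCharacter (completedLFunction gammaFactor rootNumber LFunction)

namespace Pool.Agent.Q119.HV

open H370 H370.DL H370.DG

lemma norm_Gamma_le_re {z : ℂ} (hz : 0 < z.re) : ‖Complex.Gamma z‖ ≤ Real.Gamma z.re := by
  rw [Complex.Gamma_eq_integral hz, Real.Gamma_eq_integral hz, Complex.GammaIntegral]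
  refine (norm_integral_le_integral_norm _).trans (le_of_eq ?_)
  refine setIntegral_congr_fun measurableSet_Ioi fun x hx => ?_
  have hx0 : (0 : ℝ) < x := hx
  simp only [norm_mul]
  rw [norm_cpow_eq_rpow_re_of_pos hx0, sub_re, one_re, Complex.norm_real,
    Real.norm_eq_abs, abs_of_pos (Real.exp_pos _)]

lemma Gamma_real_le {x : ℝ} (hx : 1 / 4 ≤ x) :
    Real.Gamma x ≤ Real.exp (8 * (1 + x) ^ (3 / 2 : ℝ)) := by
  have hx0 : 0 < x := by linarith
  have h1 : Real.Gamma (x + 2) = (x + 1) * (x * Real.Gamma x) := by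
    rw [show x + 2 = (x + 1) + 1 by ring, Real.Gamma_add_one (by linarith), Real.Gamma_add_one (by linarith)]
  have hG : 0 < Real.Gamma x := Real.Gamma_pos_of_pos hx0
  have h2 : Real.Gamma x ≤ 4 * Real.Gamma (x + 2) := by
    rw [h1]
    have : 1 ≤ 4 * ((x + 1) * x) := by nlinarith
    nlinarith
  set n : ℕ := ⌈x⌉₊ + 1 with hn
  have hn1 : x + 1 ≤ n := by
    have := Nat.le_ceil x
    push_cast [hn]
    linarith
  have hn2 : (n : ℝ) ≤ x + 2 := by
    have := Nat.ceil_lt_add_one hx0.le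
    push_cast [hn]
    linarith
  have h3 : Real.Gamma (x + 2) ≤ (n : ℝ) ^ n := by
    have e : Real.Gamma ((n : ℝ) + 1) = (n.factorial : ℝ) := Real.Gamma_nat_eq_factorial n
    have m : Real.Gamma (x + 2) ≤ Real.Gamma ((n : ℝ) + 1) :=
      Real.Gamma_strictMonoOn_Ici.monotoneOn (by simp; linarith) (by simp; linarith) (by linarith)
    rw [e] at m
    refine m.trans ?_
    exact_mod_cast Nat.factorial_le_pow n
  have hnpos : (0 : ℝ) < n := by linarith
  have h4 : (n : ℝ) ^ n = Real.exp (n * Real.log n) := by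
    rw [← Real.rpow_natCast, Real.rpow_def_of_pos hnpos]
    ring_nf
  have h5 : Real.log n ≤ 2 * Real.sqrt n := by
    have h6 := Real.add_one_le_exp (Real.sqrt n)
    have h7 : Real.log n = 2 * Real.log (Real.sqrt n) := by
      rw [Real.log_sqrt hnpos.le]; ring
    rw [h7]
    have h8 : Real.log (Real.sqrt n) ≤ Real.sqrt n := by
      have := Real.log_le_sub_one_of_pos (Real.sqrt_pos.2 hnpos)
      linarith
    linarith
  have h6 : (n : ℝ) * Real.sqrt n = (n : ℝ) ^ (3 / 2 : ℝ) := by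
    rw [Real.sqrt_eq_rpow]
    nth_rewrite 1 [← Real.rpow_one (n : ℝ)]
    rw [← Real.rpow_add hnpos]
    norm_num
  have h7 : (n : ℝ) ^ (3 / 2 : ℝ) ≤ 3 * (1 + x) ^ (3 / 2 : ℝ) := by
    have h8 : (n : ℝ) ^ (3 / 2 : ℝ) ≤ (2 * (1 + x)) ^ (3 / 2 : ℝ) :=
      Real.rpow_le_rpow hnpos.le (by linarith) (by norm_num)
    refine h8.trans ?_
    rw [Real.mul_rpow (by norm_num) (by linarith)]
    refine mul_le_mul_of_nonneg_right ?_ (by positivity)
    have : (2 : ℝ) ^ (3 / 2 : ℝ) = 2 * Real.sqrt 2 := by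
      rw [Real.sqrt_eq_rpow, show (3 / 2 : ℝ) = 1 + 1 / 2 by norm_num,
        Real.rpow_add (by norm_num), Real.rpow_one]
    rw [this]
    have : Real.sqrt 2 ≤ 3 / 2 := by
      rw [Real.sqrt_le_left (by norm_num)]
      norm_num
    linarith
  have h8 : (1 : ℝ) ≤ (1 + x) ^ (3 / 2 : ℝ) := Real.one_le_rpow (by linarith) (by norm_num)
  have h9 : (4 : ℝ) ≤ Real.exp 2 := by
    have e2 : Real.exp 2 = Real.exp 1 * Real.exp 1 := by rw [← Real.exp_add]; norm_num
    have := Real.exp_one_gt_d9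
    rw [e2]
    nlinarith
  calc Real.Gamma x ≤ 4 * (n : ℝ) ^ n := h2.trans (by linarith)
    _ ≤ Real.exp 2 * Real.exp (n * Real.log n) := by
        rw [h4]
        exact mul_le_mul_of_nonneg_right h9 (Real.exp_pos _).le
    _ = Real.exp (2 + n * Real.log n) := by rw [← Real.exp_add]
    _ ≤ _ := by
        apply Real.exp_le_exp.2
        have : (n : ℝ) * Real.log n ≤ 2 * (n : ℝ) ^ (3 / 2 : ℝ) := by
          rw [← h6]
          nlinarith
        nlinarith

lemma digam : ∃ C : ℝ, 0 < C ∧ ∀ z : ℂ, 1 / 2 < z.re → z.re ≤ 5 / 2 →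
    ‖logDeriv Gammaℝ z‖ ≤ C * Real.log (2 + |z.im|) := by
  set S : ℝ := ∑' n : ℕ, 1 / ((n : ℝ) + 1) ^ 2 with hS
  have hS0 : 0 ≤ S := tsum_nonneg fun n => by positivity
  refine ⟨|Real.log Real.pi| + (Real.log 2 + Real.pi + 5 + S) + 1, ?_, ?_⟩
  · have := Real.pi_pos
    have := Real.log_pos (by norm_num : (1 : ℝ) < 2)
    positivity
  intro z h1 h2
  have hz : 0 < z.re := by linarith
  have hre : (z / 2).re = z.re / 2 := by simp
  have him : (z / 2).im = z.im / 2 := by simp
  have hw : 0 < (z / 2).re := by rw [hre]; linarith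
  -- the formula
  have hne : ∀ m : ℕ, z / 2 ≠ -m := by
    intro m h
    have := congrArg re h
    rw [hre] at this
    simp at this
    have hm : (0 : ℝ) ≤ m := Nat.cast_nonneg m
    linarith
  have hpi : (Real.pi : ℂ) ≠ 0 := ofReal_ne_zero.mpr Real.pi_ne_zero
  have hform : logDeriv Gammaℝ z = -(Real.log Real.pi : ℂ) / 2 + 1 / 2 * logDeriv Gamma (z / 2) := by
    have d1 : HasDerivAt (fun z : ℂ => (Real.pi : ℂ) ^ (-z / 2))
        ((Real.pi : ℂ) ^ (-z / 2) * log (Real.pi : ℂ) * (-1 / 2)) z := by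
      have h1 : HasDerivAt (fun z : ℂ => -z / 2) (-1 / 2) z := by
        simpa using ((hasDerivAt_id z).neg).div_const 2
      exact h1.const_cpow (Or.inl hpi)
    have d2 : HasDerivAt (fun z : ℂ => Gamma (z / 2)) (deriv Gamma (z / 2) * (1 / 2)) z := by
      have h1 : HasDerivAt (fun z : ℂ => z / 2) (1 / 2) z := by
        simpa using (hasDerivAt_id z).div_const 2
      exact HasDerivAt.comp z (differentiableAt_Gamma _ hne).hasDerivAt h1
    have hG : Gammaℝ = fun z : ℂ => (Real.pi : ℂ) ^ (-z / 2) * Gamma (z / 2) := by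
      funext z
      rw [Gammaℝ_def]
    have d3 := d1.mul d2
    have hΓ : Gamma (z / 2) ≠ 0 := Gamma_ne_zero hne
    have hpc : (Real.pi : ℂ) ^ (-z / 2) ≠ 0 := by
      rw [Ne, cpow_eq_zero_iff]
      exact fun h => hpi h.1
    rw [logDeriv_apply, logDeriv_apply, hG]
    erw [d3.deriv]
    rw [← Complex.ofReal_log Real.pi_pos.le]
    field_simp
  have hl : Real.log 2 ≤ Real.log (2 + |z.im|) :=
    Real.log_le_log (by norm_num) (by linarith [abs_nonneg z.im])
  have hl2 : (1 / 2 : ℝ) ≤ Real.log 2 := by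
    have := Real.log_two_gt_d9
    linarith
  have hlp : |Real.log Real.pi| ≤ 2 * |Real.log Real.pi| * Real.log (2 + |z.im|) := by
    have := abs_nonneg (Real.log Real.pi)
    nlinarith
  have b1 : ‖log (z / 2 + 2)‖ ≤ (Real.log 2 + Real.log (2 + |z.im|)) + Real.pi := by
    have e : log (z / 2 + 2) = ((Real.log ‖z / 2 + 2‖ : ℝ) : ℂ) + (arg (z / 2 + 2) : ℂ) * I := rfl
    rw [e]
    refine (norm_add_le _ _).trans (add_le_add ?_ ?_)
    · have hn1 : 1 ≤ ‖z / 2 + 2‖ := by
        refine le_trans ?_ (re_le_norm _)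
        rw [add_re, hre]
        simp
        linarith
      rw [Complex.norm_real, Real.norm_eq_abs, abs_of_nonneg (Real.log_nonneg hn1),
        ← Real.log_mul (by norm_num) (by positivity)]
      apply Real.log_le_log (by linarith)
      refine (norm_le_abs_re_add_abs_im _).trans ?_
      rw [add_re, add_im, hre, him]
      simp only [re_ofNat, im_ofNat, add_zero]
      rw [abs_of_nonneg (by linarith : 0 ≤ z.re / 2 + 2), abs_div, abs_two]
      have := abs_nonneg z.im
      linarith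
    · rw [norm_mul, norm_I, mul_one, Complex.norm_real, Real.norm_eq_abs]
      exact abs_arg_le_pi _
  have b2 : ‖1 / (z / 2)‖ ≤ 4 := by
    have : 1 / 4 ≤ ‖z / 2‖ := by
      refine le_trans ?_ (re_le_norm _)
      rw [hre]; linarith
    rw [norm_div, norm_one, div_le_iff₀ (by linarith)]
    linarith
  have b3 : ‖1 / (z / 2 + 1)‖ ≤ 1 := by
    have : 1 ≤ ‖z / 2 + 1‖ := by
      refine le_trans ?_ (re_le_norm _)
      rw [add_re, hre, one_re]; linarith
    rw [norm_div, norm_one, div_le_iff₀ (by linarith)]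
    linarith
  have b4 : ‖logDeriv Gamma (z / 2)‖ ≤ ((Real.log 2 + Real.log (2 + |z.im|)) + Real.pi) + 4 + 1 + S := by
    rw [logDeriv_Gamma' hw]
    refine (norm_add_le _ _).trans (add_le_add ?_ (norm_tsum_er hw))
    refine (norm_sub_le _ _).trans (add_le_add ?_ b3)
    exact (norm_sub_le _ _).trans (add_le_add b1 b2)
  rw [hform]
  have b5 : ‖-(Real.log Real.pi : ℂ) / 2‖ = |Real.log Real.pi| / 2 := by
    rw [norm_div, norm_neg, Complex.norm_real, Real.norm_eq_abs]
    simp
  have b6 : ‖1 / 2 * logDeriv Gamma (z / 2)‖ = 1 / 2 * ‖logDeriv Gamma (z / 2)‖ := by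
    rw [norm_mul]
    simp
  refine (norm_add_le _ _).trans ?_
  rw [b5, b6]
  set l := Real.log (2 + |z.im|) with hl'
  have hA : (0:ℝ) ≤ Real.log 2 + Real.pi + 5 + S := by
    have := Real.pi_pos
    linarith
  have hAl : (Real.log 2 + Real.pi + 5 + S) ≤ 2 * (Real.log 2 + Real.pi + 5 + S) * l := by nlinarith
  nlinarith

end Pool.Agent.Q119.HV
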