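import Pool.Agent.Q119.HV.Zda
import Pool.Agent.H353R6.E16

set_option autoImplicit false

/-! # HV-ZD: the completed L-function of a primitive character satisfies the hypotheses of `S_ZG` -/

open Complex Filter Topology Set MeasureTheory
open DirichletCharacter (completedLFunction gammaFactor rootNumber LFunction)

namespace Pool.Agent.Q119.HV

open H370 H370.DL H370.DG H429.GP H855R2.SF Pool.Agent.Q253.HV

variable {N : ℕ} [NeZero N] (ψ : DirichletCharacter ℂ N)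

/-- the normalising constant -/
noncomputable def cc : ℂ := ((rootNumber ψ)⁻¹) ^ (1 / 2 : ℂ)

/-- the completed L-function, symmetric with respect to the imaginary axis -/
noncomputable def X (z : ℂ) : ℂ := cc ψ * (N : ℂ) ^ (z / 2) * completedLFunction ψ (1 / 2 + z)

variable {ψ}

lemma cc_sq (hψ : ψ.IsPrimitive) : cc ψ ^ 2 = (rootNumber ψ)⁻¹ := by
  have h : (rootNumber ψ)⁻¹ ≠ 0 := inv_ne_zero (rootNumber_ne_zero hψ)
  unfold cc
  rw [← cpow_nat_mul]
  norm_num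

lemma norm_cc (hψ : ψ.IsPrimitive) : ‖cc ψ‖ = 1 := by
  have h := congrArg norm (cc_sq hψ)
  rw [norm_pow, norm_inv, norm_rootNumber hψ, inv_one] at h
  have h0 := norm_nonneg (cc ψ)
  nlinarith

lemma cc_ne (hψ : ψ.IsPrimitive) : cc ψ ≠ 0 := by
  intro h
  have := norm_cc hψ
  rw [h, norm_zero] at this
  exact zero_ne_one this

lemma cc_conj (hψ : ψ.IsPrimitive) : cc ψ * rootNumber ψ = (starRingEnd ℂ) (cc ψ) := by
  have h1 : cc ψ * (starRingEnd ℂ) (cc ψ) = 1 := by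
    rw [Complex.mul_conj, Complex.normSq_eq_norm_sq, norm_cc hψ]
    norm_num
  have h2 : cc ψ * (cc ψ * rootNumber ψ) = 1 := by
    rw [← mul_assoc, ← sq, cc_sq hψ, inv_mul_cancel₀ (rootNumber_ne_zero hψ)]
  exact mul_left_cancel₀ (cc_ne hψ) (h2.trans h1.symm)

lemma Nne : (N : ℂ) ≠ 0 := by exact_mod_cast NeZero.ne N

lemma X_diff (h1 : ψ ≠ 1) : Differentiable ℂ (X ψ) := by
  intro z
  have h2 := DirichletCharacter.differentiable_completedLFunction h1
  have h3 : DifferentiableAt ℂ (fun z : ℂ => (N : ℂ) ^ (z / 2)) z := by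
    apply DifferentiableAt.const_cpow _ (Or.inl Nne)
    fun_prop
  have h4 : DifferentiableAt ℂ (fun z : ℂ => completedLFunction ψ (1 / 2 + z)) z :=
    DifferentiableAt.comp z (h2 _) (by fun_prop)
  exact ((differentiableAt_const _).mul h3).mul h4

lemma conj_half' : (starRingEnd ℂ) (1 / 2 : ℂ) = 1 / 2 := by
  rw [map_div₀, map_one, map_ofNat]

lemma X_sym (hN : 1 < N) (hψ : ψ.IsPrimitive) (z : ℂ) :
    X ψ (-((starRingEnd ℂ) z)) = (starRingEnd ℂ) (X ψ z) := by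
  have h1 := ne_one_of_prim hN hψ
  unfold X
  have h3 := DirichletCharacter.IsPrimitive.completedLFunction_one_sub hψ (1 / 2 + (starRingEnd ℂ) z)
  have e1 : (1 : ℂ) - (1 / 2 + (starRingEnd ℂ) z) = 1 / 2 + -((starRingEnd ℂ) z) := by ring
  have e2 : (1 / 2 + (starRingEnd ℂ) z) - 1 / 2 = (starRingEnd ℂ) z := by ring
  have e3 : (1 / 2 + (starRingEnd ℂ) z) = (starRingEnd ℂ) (1 / 2 + z) := by
    rw [map_add, conj_half']
  rw [e1, e2, e3, H353.E.completed_conj hN h1] at h3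
  rw [h3, map_mul, map_mul, ← cc_conj hψ]
  have e4 : (starRingEnd ℂ) ((N : ℂ) ^ (z / 2)) = (N : ℂ) ^ ((starRingEnd ℂ) z / 2) := by
    have h := cpow_conj (N : ℂ) (z / 2) (by rw [natCast_arg]; exact Real.pi_pos.ne)
    rw [conj_natCast] at h
    rw [← h, map_div₀, map_ofNat]
  rw [e4]
  have e5 : (N : ℂ) ^ (-((starRingEnd ℂ) z) / 2) * (N : ℂ) ^ ((starRingEnd ℂ) z) =
      (N : ℂ) ^ ((starRingEnd ℂ) z / 2) := by
    rw [← cpow_add _ _ Nne]
    congr 1
    ring
  calc cc ψ * (N : ℂ) ^ (-((starRingEnd ℂ) z) / 2) * ((N : ℂ) ^ ((starRingEnd ℂ) z) * rootNumber ψ *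
        (starRingEnd ℂ) (completedLFunction ψ (1 / 2 + z)))
      = cc ψ * rootNumber ψ * ((N : ℂ) ^ (-((starRingEnd ℂ) z) / 2) * (N : ℂ) ^ ((starRingEnd ℂ) z)) *
        (starRingEnd ℂ) (completedLFunction ψ (1 / 2 + z)) := by ring
    _ = _ := by rw [e5]

lemma X_eq (hN : 1 < N) {z : ℂ} (hz : -(1 / 2) < z.re) :
    X ψ z = cc ψ * (N : ℂ) ^ (z / 2) * (Gammaℝ (1 / 2 + z - -aa ψ) * LFunction ψ (1 / 2 + z)) := by
  unfold X
  rw [H353.E.completed_eq hN (by
    rw [add_re]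
    have : ((1 : ℂ) / 2).re = 1 / 2 := by norm_num
    rw [this]
    linarith)]

lemma half_re : ((1 : ℂ) / 2).re = 1 / 2 := by norm_num

lemma X_zero (hN : 1 < N) (hψ : ψ.IsPrimitive) (hL : ∀ s : ℂ, 1 / 2 < s.re → LFunction ψ s ≠ 0) {z : ℂ}
    (hz : 0 < z.re) : X ψ z ≠ 0 := by
  rw [X_eq hN (by linarith)]
  refine mul_ne_zero (mul_ne_zero (cc_ne hψ) ?_) (mul_ne_zero ?_ (hL _ ?_))
  · rw [Ne, cpow_eq_zero_iff]
    exact fun h => Nne h.1
  · apply Gammaℝ_ne_zero_of_re_pos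
    have := aa_re_nonneg (χ := ψ)
    rw [sub_neg_eq_add, add_re, add_re, half_re]
    linarith
  · rw [add_re, half_re]
    linarith

lemma aa_re_le : (aa ψ).re ≤ 1 := by
  unfold aa
  split_ifs <;> simp

lemma norm_aa_le : ‖aa ψ‖ ≤ 1 := by
  unfold aa
  split_ifs <;> simp

lemma X_growth_right (hN : 1 < N) (hψ : ψ.IsPrimitive) {z : ℂ} (hz : 0 ≤ z.re) :
    ‖X ψ z‖ ≤ Real.exp ((Real.log N + 2 * (N + 1) + 25) * (1 + ‖z‖) ^ (3 / 2 : ℝ)) := by
  have h1 := ne_one_of_prim hN hψ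
  have hN0 : (0 : ℝ) < N := by exact_mod_cast (by omega : 0 < N)
  have hlN : 0 ≤ Real.log N := Real.log_natCast_nonneg N
  set t : ℝ := 1 + ‖z‖ with ht
  have ht1 : 1 ≤ t := by
    have := norm_nonneg z
    linarith
  set u : ℝ := t ^ (3 / 2 : ℝ) with hu
  have htu : t ≤ u := by
    have : t ^ (1 : ℝ) ≤ t ^ (3 / 2 : ℝ) := Real.rpow_le_rpow_of_exponent_le ht1 (by norm_num)
    rwa [Real.rpow_one] at this
  have hu1 : 1 ≤ u := ht1.trans htu
  have hzt : ‖z‖ ≤ t := by linarith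
  set s : ℂ := 1 / 2 + z with hs
  have hsre : s.re = 1 / 2 + z.re := by rw [hs, add_re, half_re]
  have hsn : ‖s‖ ≤ t := by
    refine (norm_add_le _ _).trans ?_
    have : ‖(1 / 2 : ℂ)‖ = 1 / 2 := by norm_num
    rw [this]
    linarith
  rw [X_eq hN (by linarith), ← hs, norm_mul, norm_mul, norm_mul, norm_cc hψ, one_mul]
  -- the power
  have b1 : ‖(N : ℂ) ^ (z / 2)‖ ≤ Real.exp (Real.log N * u) := by
    rw [← Complex.ofReal_natCast, norm_cpow_eq_rpow_re_of_pos hN0, Real.rpow_def_of_pos hN0]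
    apply Real.exp_le_exp.2
    have e : (z / 2).re = z.re / 2 := by simp
    rw [e]
    have h2 : z.re ≤ ‖z‖ := re_le_norm z
    have h3 : z.re / 2 ≤ u := by linarith [norm_nonneg z]
    exact mul_le_mul_of_nonneg_left h3 hlN
  -- the L-function
  have b2 : ‖LFunction ψ s‖ ≤ Real.exp ((2 * (N + 1) + 1) * u) := by
    have h2 := growth_right h1 (s := s) (by rw [hsre]; linarith)
    have h3 : ((N : ℝ) + 1) / s.re ≤ 2 * (N + 1) := by
      rw [div_le_iff₀ (by rw [hsre]; linarith), hsre]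
      nlinarith
    have h4 : ‖LFunction ψ s‖ ≤ t * (2 * (N + 1)) :=
      h2.trans (mul_le_mul hsn h3 (by rw [hsre]; positivity) (by linarith))
    have h5 : t ≤ Real.exp u := by
      have := Real.add_one_le_exp u
      linarith
    have h6 : 2 * ((N : ℝ) + 1) ≤ Real.exp (2 * (N + 1) * u) := by
      have h7 := Real.add_one_le_exp (2 * ((N : ℝ) + 1) * u)
      have h8 : 2 * ((N : ℝ) + 1) * 1 ≤ 2 * ((N : ℝ) + 1) * u :=
        mul_le_mul_of_nonneg_left hu1 (by positivity)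
      linarith
    calc _ ≤ t * (2 * (N + 1)) := h4
      _ ≤ Real.exp u * Real.exp (2 * (N + 1) * u) := mul_le_mul h5 h6 (by positivity) (Real.exp_pos _).le
      _ = _ := by rw [← Real.exp_add]; ring_nf
  -- the Gamma factor
  have b3 : ‖Gammaℝ (s - -aa ψ)‖ ≤ Real.exp (24 * u) := by
    have ha0 := aa_re_nonneg (χ := ψ)
    have ha1 := aa_re_le (ψ := ψ)
    rw [sub_neg_eq_add]
    have hw : ((s + aa ψ) / 2).re = (s.re + (aa ψ).re) / 2 := by
      rw [show (2 : ℂ) = ((2 : ℝ) : ℂ) by norm_num, Complex.div_ofReal_re, add_re]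
    have hw0 : 1 / 4 ≤ ((s + aa ψ) / 2).re := by
      rw [hw, hsre]
      linarith
    have h2 := (norm_Gamma_le_re (z := (s + aa ψ) / 2) (by linarith)).trans (Gamma_real_le hw0)
    rw [Gammaℝ_def, norm_mul, Complex.norm_cpow_eq_rpow_re_of_pos Real.pi_pos]
    have h3 : Real.pi ^ (-(s + aa ψ) / 2).re ≤ 1 := by
      apply Real.rpow_le_one_of_one_le_of_nonpos (by linarith [Real.pi_gt_three])
      have e2 : (-(s + aa ψ) / 2).re = -((s + aa ψ) / 2).re := by
        rw [neg_div, neg_re]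
      rw [e2]
      linarith
    have h4 : (1 + ((s + aa ψ) / 2).re) ^ (3 / 2 : ℝ) ≤ 3 * u := by
      have h5 : 1 + ((s + aa ψ) / 2).re ≤ 2 * t := by
        have h6 : s.re ≤ t := (re_le_norm s).trans hsn
        rw [hw]
        linarith
      refine (Real.rpow_le_rpow (by linarith) h5 (by norm_num)).trans ?_
      rw [Real.mul_rpow (by norm_num) (by linarith)]
      refine mul_le_mul_of_nonneg_right ?_ (by positivity)
      have e : (2 : ℝ) ^ (3 / 2 : ℝ) = 2 * Real.sqrt 2 := by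
        rw [Real.sqrt_eq_rpow, show (3 / 2 : ℝ) = 1 + 1 / 2 by norm_num,
          Real.rpow_add (by norm_num), Real.rpow_one]
      rw [e]
      have : Real.sqrt 2 ≤ 3 / 2 := by
        rw [Real.sqrt_le_left (by norm_num)]
        norm_num
      linarith
    calc _ ≤ 1 * Real.exp (8 * (1 + ((s + aa ψ) / 2).re) ^ (3 / 2 : ℝ)) :=
          mul_le_mul h3 h2 (norm_nonneg _) zero_le_one
      _ ≤ Real.exp (24 * u) := by
          rw [one_mul]
          apply Real.exp_le_exp.2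
          linarith
  calc _ ≤ Real.exp (Real.log N * u) * (Real.exp (24 * u) * Real.exp ((2 * (N + 1) + 1) * u)) :=
        mul_le_mul b1 (mul_le_mul b3 b2 (norm_nonneg _) (Real.exp_pos _).le) (by positivity)
          (Real.exp_pos _).le
    _ = Real.exp ((Real.log N + 2 * (N + 1) + 25) * u) := by
        rw [← Real.exp_add, ← Real.exp_add]
        ring_nf

lemma X_growth (hN : 1 < N) (hψ : ψ.IsPrimitive) (z : ℂ) :
    ‖X ψ z‖ ≤ Real.exp ((Real.log N + 2 * (N + 1) + 25) * (1 + ‖z‖) ^ (3 / 2 : ℝ)) := by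
  rcases le_total 0 z.re with h | h
  · exact X_growth_right hN hψ h
  · have h1 := X_growth_right hN hψ (z := -((starRingEnd ℂ) z)) (by
      rw [neg_re, conj_re]; linarith)
    rw [X_sym hN hψ, RCLike.norm_conj, norm_neg, RCLike.norm_conj] at h1
    exact h1

/-- the logarithmic derivatives -/
lemma logDeriv_X (hN : 1 < N) (hψ : ψ.IsPrimitive) {z : ℂ} (hz : 0 < z.re)
    (hL : LFunction ψ (1 / 2 + z) ≠ 0) :
    logDeriv (X ψ) z = (1 / 2) * (Real.log N : ℂ) + logDeriv Gammaℝ (1 / 2 + z + aa ψ) +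
      logDeriv (LFunction ψ) (1 / 2 + z) := by
  have h1 := ne_one_of_prim hN hψ
  have hG : Gammaℝ (1 / 2 + z + aa ψ) ≠ 0 := by
    apply Gammaℝ_ne_zero_of_re_pos
    have := aa_re_nonneg (χ := ψ)
    rw [add_re, add_re, half_re]
    linarith
  have hmem : {z : ℂ | -(1 / 2) < z.re} ∈ 𝓝 z :=
    (isOpen_lt continuous_const continuous_re).mem_nhds (by show -(1 / 2) < z.re; linarith)
  have hev : X ψ =ᶠ[𝓝 z] fun w => (cc ψ * (N : ℂ) ^ (w / 2)) *
      (Gammaℝ (1 / 2 + w + aa ψ) * LFunction ψ (1 / 2 + w)) := by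
    filter_upwards [hmem] with w hw
    rw [X_eq hN hw, sub_neg_eq_add]
  have hGd : DifferentiableAt ℂ Gammaℝ (1 / 2 + z + aa ψ) := by
    have h := (differentiable_Gammaℝ_inv (1 / 2 + z + aa ψ)).inv (inv_ne_zero hG)
    have e : (fun s : ℂ => (Gammaℝ s)⁻¹)⁻¹ = Gammaℝ := by
      funext w
      simp
    rwa [e] at h
  have hcomp2 : HasDerivAt (fun w : ℂ => 1 / 2 + w) 1 z := (hasDerivAt_id z).const_add (1 / 2)
  have hcomp : HasDerivAt (fun w : ℂ => 1 / 2 + w + aa ψ) 1 z := hcomp2.add_const (aa ψ)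
  have d1 : HasDerivAt (fun w : ℂ => Gammaℝ (1 / 2 + w + aa ψ)) (deriv Gammaℝ (1 / 2 + z + aa ψ) * 1) z :=
    HasDerivAt.comp (h₂ := Gammaℝ) z hGd.hasDerivAt hcomp
  have d2 : HasDerivAt (fun w : ℂ => LFunction ψ (1 / 2 + w)) (deriv (LFunction ψ) (1 / 2 + z) * 1) z :=
    HasDerivAt.comp (h₂ := LFunction ψ) z (DirichletCharacter.differentiable_LFunction h1 _).hasDerivAt hcomp2
  have d3 : HasDerivAt (fun w : ℂ => cc ψ * (N : ℂ) ^ (w / 2))
      (cc ψ * ((N : ℂ) ^ (z / 2) * log (N : ℂ) * (1 / 2))) z := by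
    have h2 : HasDerivAt (fun w : ℂ => w / 2) (1 / 2) z := by
      simpa using (hasDerivAt_id z).div_const 2
    exact (h2.const_cpow (Or.inl Nne)).const_mul _
  have hP : (N : ℂ) ^ (z / 2) ≠ 0 := by
    rw [Ne, cpow_eq_zero_iff]
    exact fun h => Nne h.1
  have d4 := d3.mul (d1.mul d2)
  have hlog : (Real.log N : ℂ) = log (N : ℂ) := by
    rw [← Complex.ofReal_natCast, Complex.ofReal_log (Nat.cast_nonneg N)]
  rw [logDeriv_apply, hev.deriv_eq, hev.eq_of_nhds, hlog]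
  erw [d4.deriv]
  rw [logDeriv_apply, logDeriv_apply]
  have hc := cc_ne hψ
  simp only [Pi.mul_apply]
  generalize Gammaℝ (1 / 2 + z + aa ψ) = G at *
  generalize LFunction ψ (1 / 2 + z) = L at *
  generalize deriv (LFunction ψ) (1 / 2 + z) = L'
  generalize deriv Gammaℝ (1 / 2 + z + aa ψ) = G'
  generalize (N : ℂ) ^ (z / 2) = P at *
  field_simp
  ring

end Pool.Agent.Q119.HV
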